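import Mathlib

/-!
# Products of strong `d`-spaces (MP_e2e219_gt, Q1): negative answer

Let `C` be the chain `0 < 1 < 2 < ... < ω` with its Scott topology and let `P` be the poset with the
minimal elements `a`, `b` and the maximal elements `z 0, z 1, ...`, each above `a` and above `b`, with
the topology of all upper sets (its Scott topology). Both are strong `d`-spaces. In `C × P` let
`D = {(n, b) : n ∈ ℕ}`, `x = (0, a)` and `U = ⋃ n, [n, ω] × {z n}`, an open set. The common upper bounds of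
`D` and `x` are the points `(ω, z n)`, which lie in `U`, and `(n, z (n + 1)) ∉ U` is an upper bound of
`(n, b)` and `x`. So `C × P` is not a strong `d`-space.
-/

namespace Pool.Agent.Results.MP_e2e219_gt.ProductNotStrong

open Set

/-- `up x` is the set of all `y` with `x ≤ y` in the specialization order, `x ∈ closure {y}`. -/
def up {X : Type*} [TopologicalSpace X] (x : X) : Set X := {y | x ∈ closure {y}}

/-- Strong `d`-spaces. -/
def StrongD (X : Type*) [TopologicalSpace X] : Prop :=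
  T0Space X ∧ ∀ D : Set X, D.Nonempty →
    (∀ a ∈ D, ∀ b ∈ D, ∃ c ∈ D, c ∈ up a ∧ c ∈ up b) →
    ∀ (x : X) (U : Set X), IsOpen U → (⋂ d ∈ D, up d) ∩ up x ⊆ U → ∃ d ∈ D, up d ∩ up x ⊆ U

/-- The chain `0 < 1 < 2 < ... < ω`. -/
structure C where
  /-- the underlying extended natural number -/
  val : ℕ∞

/-- The Scott topology of the chain `ω + 1`. -/
instance : TopologicalSpace C where
  IsOpen U := (∀ x y : C, x.val ≤ y.val → x ∈ U → y ∈ U) ∧
    ((⟨⊤⟩ : C) ∈ U → ∃ n : ℕ, (⟨(n : ℕ∞)⟩ : C) ∈ U)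
  isOpen_univ := ⟨fun _ _ _ _ => mem_univ _, fun _ => ⟨0, mem_univ _⟩⟩
  isOpen_inter := by
    rintro s t ⟨hs1, hs2⟩ ⟨ht1, ht2⟩
    refine ⟨fun x y hxy hx => ⟨hs1 x y hxy hx.1, ht1 x y hxy hx.2⟩, fun h => ?_⟩
    obtain ⟨n, hn⟩ := hs2 h.1
    obtain ⟨m, hm⟩ := ht2 h.2
    refine ⟨max n m, hs1 _ _ ?_ hn, ht1 _ _ ?_ hm⟩
    · exact Nat.cast_le.2 (le_max_left n m)
    · exact Nat.cast_le.2 (le_max_right n m)
  isOpen_sUnion := by
    intro S hS
    refine ⟨fun x y hxy hx => ?_, fun h => ?_⟩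
    · obtain ⟨s, hs, hx⟩ := hx
      exact ⟨s, hs, (hS s hs).1 x y hxy hx⟩
    · obtain ⟨s, hs, hx⟩ := h
      obtain ⟨n, hn⟩ := (hS s hs).2 hx
      exact ⟨n, s, hs, hn⟩

theorem isOpen_C {U : Set C} : IsOpen U ↔ (∀ x y : C, x.val ≤ y.val → x ∈ U → y ∈ U) ∧
    ((⟨⊤⟩ : C) ∈ U → ∃ n : ℕ, (⟨(n : ℕ∞)⟩ : C) ∈ U) := Iff.rfl

/-- The set of all elements `≥ n` is open. -/
theorem isOpen_ge (n : ℕ) : IsOpen {y : C | (n : ℕ∞) ≤ y.val} :=
  isOpen_C.2 ⟨fun _ _ hxy hx => le_trans hx hxy, fun _ => ⟨n, le_refl (n : ℕ∞)⟩⟩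

theorem mem_up_C {x y : C} : y ∈ up x ↔ x.val ≤ y.val := by
  unfold up
  rw [mem_ofPred_eq, mem_closure_iff]
  constructor
  · intro h
    by_contra hlt
    rw [not_le] at hlt
    obtain ⟨n, hn⟩ := ENat.ne_top_iff_exists.1 hlt.ne_top
    have := h _ (isOpen_ge (n + 1)) (by
      show ((n + 1 : ℕ) : ℕ∞) ≤ x.val
      rw [← hn] at hlt
      push_cast
      exact Order.add_one_le_of_lt hlt)
    obtain ⟨z, hz, rfl⟩ := this
    have hz' : ((n + 1 : ℕ) : ℕ∞) ≤ z.val := hz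
    rw [← hn] at hz'
    have : n + 1 ≤ n := by exact_mod_cast hz'
    omega
  · intro h o ho hx
    exact ⟨y, ho.1 x y h hx, rfl⟩

theorem C_ext {x y : C} (h : x.val = y.val) : x = y := by
  cases x; cases y; simp_all

theorem strongD_C : StrongD C := by
  refine ⟨⟨fun x y h => ?_⟩, ?_⟩
  · have h1 : y ∈ up x := specializes_iff_mem_closure.1 h.specializes'
    have h2 : x ∈ up y := specializes_iff_mem_closure.1 h.specializes
    exact C_ext (le_antisymm (mem_up_C.1 h1) (mem_up_C.1 h2))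
  · intro D hD _ x U hU hsub
    have htop : (⟨⊤⟩ : C) ∈ U := by
      refine hsub ⟨?_, mem_up_C.2 le_top⟩
      simp only [mem_iInter]
      exact fun d _ => mem_up_C.2 le_top
    obtain ⟨n, hn⟩ := hU.2 htop
    by_cases hex : ∃ d ∈ D, (n : ℕ∞) ≤ d.val
    · obtain ⟨d, hd, hnd⟩ := hex
      refine ⟨d, hd, fun y hy => ?_⟩
      exact hU.1 ⟨n⟩ y (le_trans hnd (mem_up_C.1 hy.1)) hn
    · push Not at hex
      have hlt : sSup (C.val '' D) < ⊤ := by
        refine lt_of_le_of_lt (sSup_le ?_) (ENat.natCast_lt_top n)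
        rintro _ ⟨d, hd, rfl⟩
        exact (hex d hd).le
      have : Nonempty (C.val '' D) := (hD.image _).to_subtype
      obtain ⟨d, hd, hds⟩ := ENat.sSup_mem_of_nonempty_of_lt_top hlt
      refine ⟨d, hd, fun y hy => hsub ⟨?_, hy.2⟩⟩
      simp only [mem_iInter]
      intro e he
      refine mem_up_C.2 (le_trans ?_ (mem_up_C.1 hy.1))
      rw [hds]
      exact le_sSup (mem_image_of_mem _ he)

/-- The poset with two minimal elements `a`, `b` and the maximal elements `z 0`, `z 1`, ...,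
each of them above `a` and above `b`. -/
inductive P
  | a : P
  | b : P
  | z : ℕ → P

/-- The topology of all upper sets of `P`. -/
instance : TopologicalSpace P where
  IsOpen U := (P.a ∈ U ∨ P.b ∈ U) → ∀ n, P.z n ∈ U
  isOpen_univ := fun _ _ => mem_univ _
  isOpen_inter := by
    intro s t hs ht h n
    exact ⟨hs (h.imp (fun h => h.1) fun h => h.1) n, ht (h.imp (fun h => h.2) fun h => h.2) n⟩
  isOpen_sUnion := by
    rintro S hS (⟨s, hs, h⟩ | ⟨s, hs, h⟩) n
    · exact ⟨s, hs, hS s hs (Or.inl h) n⟩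
    · exact ⟨s, hs, hS s hs (Or.inr h) n⟩

theorem isOpen_P {U : Set P} : IsOpen U ↔ ((P.a ∈ U ∨ P.b ∈ U) → ∀ n, P.z n ∈ U) := Iff.rfl

theorem mem_up_P {x y : P} :
    y ∈ up x ↔ x = y ∨ ((x = P.a ∨ x = P.b) ∧ ∃ n, y = P.z n) := by
  unfold up
  rw [mem_ofPred_eq, mem_closure_iff]
  constructor
  · intro h
    by_cases hx : x = P.a ∨ x = P.b
    · obtain ⟨w, hw, hwy⟩ := h ({x} ∪ range P.z)
        (isOpen_P.2 fun _ n => Or.inr (mem_range_self n)) (Or.inl rfl)
      rw [mem_singleton_iff] at hwy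
      subst hwy
      rcases hw with hw | ⟨n, hn⟩
      · exact Or.inl hw.symm
      · exact Or.inr ⟨hx, n, hn.symm⟩
    · have ho : IsOpen ({x} : Set P) := isOpen_P.2 fun h => absurd (by
        rcases h with h | h
        · exact Or.inl (mem_singleton_iff.1 h).symm
        · exact Or.inr (mem_singleton_iff.1 h).symm) hx
      obtain ⟨w, hw, hwy⟩ := h {x} ho rfl
      rw [mem_singleton_iff] at hw hwy
      exact Or.inl (hw.symm.trans hwy)
  · rintro (rfl | ⟨hx, n, rfl⟩) o ho hxo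
    · exact ⟨x, hxo, rfl⟩
    · refine ⟨P.z n, isOpen_P.1 ho ?_ n, rfl⟩
      rcases hx with rfl | rfl
      · exact Or.inl hxo
      · exact Or.inr hxo

theorem strongD_P : StrongD P := by
  refine ⟨⟨fun x y h => ?_⟩, ?_⟩
  · have h1 : y ∈ up x := specializes_iff_mem_closure.1 h.specializes'
    have h2 : x ∈ up y := specializes_iff_mem_closure.1 h.specializes
    rw [mem_up_P] at h1 h2
    rcases h1 with h1 | ⟨h1, n, h3⟩
    · exact h1
    · rcases h2 with h2 | ⟨h2, m, h4⟩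
      · exact h2.symm
      · rcases h2 with h2 | h2 <;> simp [h3] at h2
  · intro D hD hdir x U hU hsub
    have hmax : ∃ m ∈ D, ∀ d ∈ D, m ∈ up d := by
      by_cases hz : ∃ n, P.z n ∈ D
      · obtain ⟨n, hn⟩ := hz
        refine ⟨P.z n, hn, fun d hd => ?_⟩
        obtain ⟨c, hc, hc1, hc2⟩ := hdir d hd _ hn
        rw [mem_up_P] at hc2
        rcases hc2 with hc2 | ⟨h, _⟩
        · rw [hc2]; exact hc1
        · rcases h with h | h <;> simp at h
      · push Not at hz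
        obtain ⟨m, hm⟩ := hD
        refine ⟨m, hm, fun d hd => ?_⟩
        obtain ⟨c, hc, hc1, hc2⟩ := hdir d hd m hm
        rw [mem_up_P] at hc2
        rcases hc2 with hc2 | ⟨h, n, hn⟩
        · rw [hc2]; exact hc1
        · exact absurd (hn ▸ hc) (hz n)
    obtain ⟨m, hm, hmax⟩ := hmax
    refine ⟨m, hm, fun y hy => hsub ⟨?_, hy.2⟩⟩
    simp only [mem_iInter]
    intro d hd
    have h1 : y ∈ up m := hy.1
    have h2 := hmax d hd
    have h3 : m ⤳ d := specializes_iff_mem_closure.2 h2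
    have h4 : y ⤳ m := specializes_iff_mem_closure.2 h1
    exact specializes_iff_mem_closure.1 (h4.trans h3)

theorem mem_up_prod {X Y : Type*} [TopologicalSpace X] [TopologicalSpace Y] {p q : X × Y} :
    q ∈ up p ↔ q.1 ∈ up p.1 ∧ q.2 ∈ up p.2 := by
  unfold up
  rw [mem_ofPred_eq, mem_ofPred_eq, mem_ofPred_eq, ← specializes_iff_mem_closure,
    ← specializes_iff_mem_closure, ← specializes_iff_mem_closure, specializes_prod]

theorem not_strongD_prod : ¬ StrongD (C × P) := by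
  rintro ⟨-, h⟩
  obtain ⟨d, hd, hsub⟩ := h (range fun n : ℕ => ((⟨(n : ℕ∞)⟩ : C), P.b)) (range_nonempty _) (by
    rintro _ ⟨m, rfl⟩ _ ⟨n, rfl⟩
    refine ⟨_, ⟨max m n, rfl⟩, ?_, ?_⟩
    · refine mem_up_prod.2 ⟨mem_up_C.2 ?_, mem_up_P.2 (Or.inl rfl)⟩
      exact Nat.cast_le.2 (le_max_left m n)
    · refine mem_up_prod.2 ⟨mem_up_C.2 ?_, mem_up_P.2 (Or.inl rfl)⟩
      exact Nat.cast_le.2 (le_max_right m n)) ((⟨0⟩ : C), P.a)
    (⋃ n : ℕ, {y : C | (n : ℕ∞) ≤ y.val} ×ˢ {P.z n})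
    (isOpen_iUnion fun n => (isOpen_ge n).prod (isOpen_P.2 (by
      rintro (h | h) <;> simp at h))) (by
    rintro ⟨c, p⟩ ⟨h1, h2⟩
    simp only [mem_iInter, mem_range, forall_exists_index, forall_apply_eq_imp_iff] at h1
    have hp : ∃ n, p = P.z n := by
      have h3 := mem_up_P.1 (mem_up_prod.1 h2).2
      have h4 := mem_up_P.1 (mem_up_prod.1 (h1 0)).2
      rcases h3 with h3 | ⟨-, h3⟩
      · rcases h4 with h4 | ⟨-, h4⟩
        · exact absurd (h3.trans h4.symm) (by simp)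
        · exact h4
      · exact h3
    obtain ⟨n, rfl⟩ := hp
    exact mem_iUnion.2 ⟨n, mem_up_C.1 (mem_up_prod.1 (h1 n)).1, rfl⟩)
  obtain ⟨n, rfl⟩ := hd
  have := hsub (a := ((⟨(n : ℕ∞)⟩ : C), P.z (n + 1))) ⟨mem_up_prod.2 ⟨mem_up_C.2 le_rfl,
    mem_up_P.2 (Or.inr ⟨Or.inr rfl, _, rfl⟩)⟩, mem_up_prod.2 ⟨mem_up_C.2 (bot_le (a := (n : ℕ∞))),
    mem_up_P.2 (Or.inr ⟨Or.inl rfl, _, rfl⟩)⟩⟩
  obtain ⟨m, hm1, hm2⟩ := mem_iUnion.1 this
  have h5 : n + 1 = m := by simpa using hm2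
  subst h5
  have h6 : ((n + 1 : ℕ) : ℕ∞) ≤ (n : ℕ∞) := hm1
  have : n + 1 ≤ n := by exact_mod_cast h6
  omega

theorem StrongD.of_homeomorph {X Y : Type*} [TopologicalSpace X] [TopologicalSpace Y]
    (e : X ≃ₜ Y) (h : StrongD X) : StrongD Y := by
  have hup : ∀ x y : X, y ∈ up x ↔ e y ∈ up (e x) := by
    intro x y
    unfold up
    rw [mem_ofPred_eq, mem_ofPred_eq, ← specializes_iff_mem_closure, ← specializes_iff_mem_closure]
    exact (e.isInducing.specializes_iff).symm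
  have := h.1
  refine ⟨e.symm.isEmbedding.t0Space, ?_⟩
  intro D hD hdir x U hU hsub
  obtain ⟨d, hd, hd2⟩ := h.2 (e ⁻¹' D) (by
      obtain ⟨d, hd⟩ := hD
      exact ⟨e.symm d, by simpa using hd⟩) (by
      intro a ha b hb
      obtain ⟨c, hc, h1, h2⟩ := hdir _ ha _ hb
      refine ⟨e.symm c, by simpa using hc, ?_, ?_⟩
      · rw [hup]; simpa using h1
      · rw [hup]; simpa using h2) (e.symm x) (e ⁻¹' U) (hU.preimage e.continuous) (by
      rintro y ⟨h1, h2⟩
      refine hsub ⟨?_, ?_⟩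
      · simp only [mem_iInter] at h1 ⊢
        intro d hd
        have := h1 (e.symm d) (by simpa using hd)
        rw [hup] at this
        simpa using this
      · rw [hup] at h2
        simpa using h2)
  refine ⟨e d, hd, ?_⟩
  rintro y ⟨h1, h2⟩
  have : e.symm y ∈ e ⁻¹' U := hd2 ⟨by rw [hup]; simpa using h1, by rw [hup]; simpa using h2⟩
  simpa using this

/-- The family of the two spaces. -/
def F : Fin 2 → Type
  | 0 => C
  | 1 => P

instance : ∀ i, TopologicalSpace (F i)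
  | 0 => inferInstanceAs (TopologicalSpace C)
  | 1 => inferInstanceAs (TopologicalSpace P)

/-- There are two strong `d`-spaces whose product is not a strong `d`-space. -/
theorem result : ∃ (X : Fin 2 → Type) (_ : ∀ i, TopologicalSpace (X i)),
    (∀ i, StrongD (X i)) ∧ ¬ StrongD (∀ i, X i) := by
  refine ⟨F, inferInstance, ?_, fun h => ?_⟩
  · intro i
    match i with
    | 0 => exact strongD_C
    | 1 => exact strongD_P
  · exact not_strongD_prod (h.of_homeomorph (Homeomorph.piFinTwo F))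

end Pool.Agent.Results.MP_e2e219_gt.ProductNotStrong
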